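import Pool.Agent.PGEF.Frame

/-!
The converse of the P-door: structures of elementary type with `-1 = 1` have (P) at every
quaternion.
-/

set_option autoImplicit false
set_option linter.unusedSectionVars false

namespace Pool.Agent.PGEF

open QS Pool.Agent.RFT Pool.Agent.ETG Pool.Agent.RFN Pool.Agent.AST Pool.Agent.LSS

theorem x_ne : (Multiplicative.ofAdd (1 : ZMod 2)) ≠ 1 := by decide

theorem flat_zero (S : QStruct) {a b : S.G} (h : S.q a b = S.zero) : FlatP S a b :=
  fun _ _ _ => ⟨1, fun _ _ => by rw [S.q_one, h]⟩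

theorem zero_of_one (S : QStruct) (y : S.G) : S.q 1 y = S.zero := by
  rw [S.qs2]; exact S.q_one y

theorem flat_iso {S T : QStruct} (h : Iso S T) (hS : ∀ a b, FlatP S a b) :
    ∀ a b, FlatP T a b := by
  obtain ⟨e, -, h1⟩ := h
  intro a b H x hx
  obtain ⟨a, rfl⟩ := e.surjective a
  obtain ⟨b, rfl⟩ := e.surjective b
  obtain ⟨x, rfl⟩ := e.surjective x
  obtain ⟨y, hy⟩ := hS a b (H.comap e.toMonoidHom) x (by
    intro u hu
    obtain ⟨y, hy⟩ := hx (e u) hu
    obtain ⟨y, rfl⟩ := e.surjective y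
    rw [← map_mul] at hy
    exact ⟨y, (h1 _ _ _ _).2 hy⟩)
  refine ⟨e y, ?_⟩
  intro u hu
  obtain ⟨u, rfl⟩ := e.surjective u
  rw [← map_mul]
  exact (h1 _ _ _ _).1 (hy u hu)

theorem flat_prod {S T : QStruct} (hS : ∀ a b, FlatP S a b) (hT : ∀ a b, FlatP T a b) :
    ∀ a b, FlatP (QS.prod S T) a b := by
  rintro a b H x hx
  obtain ⟨y, hy⟩ := hS a.1 b.1 (H.map (MonoidHom.fst S.G T.G)) x.1 (by
    rintro _ ⟨u, hu, rfl⟩
    obtain ⟨y, hy⟩ := hx u hu
    exact ⟨y.1, congrArg Prod.fst hy⟩)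
  obtain ⟨z, hz⟩ := hT a.2 b.2 (H.map (MonoidHom.snd S.G T.G)) x.2 (by
    rintro _ ⟨u, hu, rfl⟩
    obtain ⟨y, hy⟩ := hx u hu
    exact ⟨y.2, congrArg Prod.snd hy⟩)
  exact ⟨((y, z) : S.G × T.G), fun u hu => Prod.ext (hy u.1 ⟨u, hu, rfl⟩) (hz u.2 ⟨u, hu, rfl⟩)⟩

theorem flat_ext {S : QStruct} (hneg : S.neg = 1) (hS : ∀ a b, FlatP S a b) :
    ∀ a b, FlatP (QS.ext S) a b := by
  intro a b H x hx
  -- the value
  have hval : ∀ u v : (QS.ext S).G, (QS.ext S).q u v = (QS.ext S).q a b ↔
      extMap S u v = extMap S a b := fun u v =>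
    ⟨fun h => congrArg Subtype.val h, fun h => Subtype.ext h⟩
  generalize hc : extMap S a b = c at hval
  obtain ⟨c, d⟩ := c
  have key : ∀ v : S.G × Multiplicative (ZMod 2), (∃ y, extMap S v y = (c, d)) → d ≠ 1 →
      (v.2 = 1 → v.1 = d) ∧ (v.2 ≠ 1 → S.q v.1 d = c) := by
    rintro ⟨v, α⟩ ⟨⟨y, β⟩, h⟩ hd
    rcases two_cases α with rfl | rfl <;> rcases two_cases β with rfl | rfl
    · rw [extMap_one_one, Prod.mk.injEq] at h
      exact absurd h.2.symm hd
    · rw [extMap_one_x, Prod.mk.injEq] at h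
      exact ⟨fun _ => h.2, fun h' => absurd rfl h'⟩
    · rw [extMap_x_one, Prod.mk.injEq] at h
      refine ⟨fun h' => absurd h' x_ne, fun _ => ?_⟩
      rw [← h.2]; exact h.1
    · rw [extMap_x_x, Prod.mk.injEq] at h
      refine ⟨fun h' => absurd h' x_ne, fun _ => ?_⟩
      rw [← h.2, S.q_neg_mul]; exact h.1
  have key1 : ∀ v : S.G × Multiplicative (ZMod 2), (∃ y, extMap S v y = (c, 1)) →
      c ≠ S.zero → v.2 = 1 ∧ ∃ y, S.q v.1 y = c := by
    rintro ⟨v, α⟩ ⟨⟨y, β⟩, h⟩ hc0
    rcases two_cases α with rfl | rfl <;> rcases two_cases β with rfl | rfl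
    · rw [extMap_one_one, Prod.mk.injEq] at h
      exact ⟨rfl, y, h.1⟩
    · rw [extMap_one_x, Prod.mk.injEq] at h
      exfalso
      apply hc0
      rw [← h.1, h.2, zero_of_one]
    · rw [extMap_x_one, Prod.mk.injEq] at h
      exfalso
      apply hc0
      rw [← h.1, h.2, S.q_one]
    · rw [extMap_x_x, Prod.mk.injEq, hneg, one_mul] at h
      exfalso
      apply hc0
      have h2 : y = v := ((eq_iff_mul S v y).2 h.2).symm
      rw [← h.1, h2]
      have := S.qs1 v
      rwa [hneg, one_mul] at this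
  by_cases hd : d = 1
  · subst hd
    by_cases hc0 : c = S.zero
    · subst hc0
      refine ⟨(1, 1), fun u hu => (hval _ _).2 ?_⟩
      obtain ⟨v, α⟩ := x * u
      rcases two_cases α with rfl | rfl
      · rw [extMap_one_one, S.q_one]
      · rw [extMap_x_one, S.q_one]
    · have h1 : ∀ u ∈ H, (x * u).2 = 1 ∧ ∃ y, S.q (x * u).1 y = c := fun u hu => by
        obtain ⟨y, hy⟩ := hx u hu
        exact key1 (x * u) ⟨y, (hval _ _).1 hy⟩ hc0
      obtain ⟨y0, hy0⟩ := (h1 1 H.one_mem).2
      obtain ⟨y, hy⟩ := hS (x * 1).1 y0 (H.map (MonoidHom.fst S.G (Multiplicative (ZMod 2)))) x.1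
        (by
          rintro _ ⟨u, hu, rfl⟩
          obtain ⟨y, hy⟩ := (h1 u hu).2
          exact ⟨y, hy.trans hy0.symm⟩)
      refine ⟨(y, 1), fun u hu => (hval _ _).2 ?_⟩
      have h2 : (x * u) = ((x * u).1, 1) := Prod.ext rfl (h1 u hu).1
      rw [h2, extMap_one_one]
      refine Prod.ext ?_ rfl
      exact (hy u.1 ⟨u, hu, rfl⟩).trans hy0
  · have h1 : ∀ u ∈ H, ((x * u).2 = 1 → (x * u).1 = d) ∧ ((x * u).2 ≠ 1 → S.q (x * u).1 d = c) :=
      fun u hu => by
        obtain ⟨y, hy⟩ := hx u hu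
        exact key (x * u) ⟨y, (hval _ _).1 hy⟩ hd
    by_cases h2 : ∀ u ∈ H, (x * u).2 ≠ 1
    · refine ⟨(d, 1), fun u hu => (hval _ _).2 ?_⟩
      have h3 : (x * u).2 = Multiplicative.ofAdd 1 := (two_cases _).resolve_left (h2 u hu)
      have h4 : (x * u) = ((x * u).1, Multiplicative.ofAdd 1) := Prod.ext rfl h3
      rw [h4, extMap_x_one, (h1 u hu).2 (h2 u hu)]
    · push Not at h2
      obtain ⟨u0, hu0, h3⟩ := h2
      -- elements of `H` with second component one are trivial
      have h4 : ∀ u ∈ H, u.2 = 1 → u = 1 := by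
        intro u hu h5
        have h6 := (h1 u0 hu0).1 h3
        have h7 : (x * (u0 * u)).2 = 1 := by
          have : (x * (u0 * u)).2 = (x * u0).2 * u.2 := by
            show x.2 * (u0.2 * u.2) = x.2 * u0.2 * u.2
            rw [mul_assoc]
          rw [this, h3, h5, mul_one]
        have h8 := (h1 _ (H.mul_mem hu0 hu)).1 h7
        have h9 : (x * (u0 * u)).1 = (x * u0).1 * u.1 := by
          show x.1 * (u0.1 * u.1) = x.1 * u0.1 * u.1
          rw [mul_assoc]
        rw [h9, h6] at h8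
        refine Prod.ext ?_ h5
        exact mul_eq_left.1 h8
      by_cases h5 : ∃ u1 ∈ H, u1.2 ≠ 1
      · obtain ⟨u1, hu1, h6⟩ := h5
        obtain ⟨y1, hy1⟩ := hx 1 H.one_mem
        obtain ⟨y2, hy2⟩ := hx u1 hu1
        rw [mul_one] at hy1
        obtain ⟨y, h7, h8⟩ := (QS.ext S).qs4 _ _ _ _ (hy1.trans hy2.symm)
        refine ⟨y, fun u hu => ?_⟩
        by_cases h9 : u.2 = 1
        · rw [h4 u hu h9, mul_one, ← h7, hy1]
        · have h10 : u1 * u = 1 := by
            apply h4 _ (H.mul_mem hu1 hu)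
            show u1.2 * u.2 = 1
            rw [(two_cases _).resolve_left h6, (two_cases _).resolve_left h9]
            exact x_mul_x
          have h11 : u = u1 := ((eq_iff_mul (QS.ext S) u1 u).2 h10).symm
          rw [h11, ← h8, hy2]
      · push Not at h5
        obtain ⟨y, hy⟩ := hx 1 H.one_mem
        exact ⟨y, fun u hu => by rw [h4 u hu (h5 u hu)]; exact hy⟩

theorem two_Q (S : QStruct) (h : Nat.card S.Q = 2) {β γ : S.Q} (hβ : β ≠ S.zero)
    (hγ : γ ≠ S.zero) : β = γ := by
  have hf : Finite S.Q := Nat.finite_of_card_ne_zero (by rw [h]; norm_num)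
  by_contra hne
  have h3 : 3 ≤ Nat.card S.Q := by
    classical
    have := Fintype.ofFinite S.Q
    rw [Nat.card_eq_fintype_card]
    have h4 : ({S.zero, β, γ} : Finset S.Q).card = 3 := by
      rw [Finset.card_insert_of_notMem, Finset.card_insert_of_notMem,
        Finset.card_singleton]
      · simpa using hne
      · simp only [Finset.mem_insert, Finset.mem_singleton, not_or]
        exact ⟨fun h => hβ h.symm, fun h => hγ h.symm⟩
    rw [← h4]
    exact Finset.card_le_univ _
  omega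

/-- separation in local types -/
theorem loc_sep (S : QStruct) (h1 : ∀ a, (∀ b, S.q a b = S.zero) → a = 1)
    (h2 : Nat.card S.Q = 2) (s : Finset S.G) : ∀ x, x ∉ Subgroup.closure (s : Set S.G) →
      ∃ y, (∀ h ∈ s, S.q h y = S.zero) ∧ S.q x y ≠ S.zero := by
  classical
  induction s using Finset.induction_on with
  | empty =>
    intro x hx
    by_contra hcon
    push Not at hcon
    apply hx
    rw [h1 x fun b => hcon b (fun h hh => absurd hh (Finset.notMem_empty h))]
    exact Subgroup.one_mem _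
  | insert g s _ ih =>
    intro x hx
    have hmono : Subgroup.closure (s : Set S.G) ≤ Subgroup.closure ((insert g s : Finset S.G) : Set S.G) :=
      Subgroup.closure_mono (by
        intro a ha
        exact Finset.mem_insert_of_mem ha)
    have hg : g ∈ Subgroup.closure ((insert g s : Finset S.G) : Set S.G) :=
      Subgroup.subset_closure (Finset.mem_insert_self g s)
    obtain ⟨y1, e1, n1⟩ := ih x (fun h => hx (hmono h))
    obtain ⟨y2, e2, n2⟩ := ih (x * g) (fun h => hx (by
      have := Subgroup.mul_mem _ (hmono h) hg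
      rwa [mul_assoc, S.exp_two, mul_one] at this))
    -- additivity in the first variable
    have addl : ∀ a b y, S.q a y = S.q b y → S.q (a * b) y = S.zero := by
      intro a b y h
      rw [S.qs2]
      exact (S.qs3 y a b).1 (by rw [S.qs2 y a, S.qs2 y b, h])
    have addr : ∀ a y y', S.q a y = S.q a y' → S.q a (y * y') = S.zero := fun a y y' h =>
      (S.qs3 a y y').1 h
    have fin : ∀ y, (∀ h ∈ s, S.q h y = S.zero) → S.q x y ≠ S.zero → S.q g y = S.zero →
        ∃ y, (∀ h ∈ insert g s, S.q h y = S.zero) ∧ S.q x y ≠ S.zero := by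
      intro y e n k
      refine ⟨y, fun h hh => ?_, n⟩
      rcases Finset.mem_insert.1 hh with rfl | hh
      · exact k
      · exact e h hh
    by_cases k1 : S.q g y1 = S.zero
    · exact fin y1 e1 n1 k1
    by_cases k2 : S.q g y2 = S.zero
    · refine fin y2 e2 ?_ k2
      intro h
      exact n2 (addl x g y2 (by rw [h, k2]))
    · have k3 : S.q x y2 = S.zero := by
        by_contra k4
        exact n2 (addl x g y2 (two_Q S h2 k4 k2))
      refine fin (y1 * y2) ?_ ?_ (addr g y1 y2 (two_Q S h2 k1 k2))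
      · intro h hh
        exact addr h y1 y2 (by rw [e1 h hh, e2 h hh])
      · rw [mul_comm, S.q_zero_mul k3]
        exact n1

theorem flat_loc (S : QStruct) (hf : Finite S.G) (h1 : ∀ a, (∀ b, S.q a b = S.zero) → a = 1)
    (h2 : Nat.card S.Q = 2) : ∀ a b, FlatP S a b := by
  intro a b
  by_cases h0 : S.q a b = S.zero
  · exact flat_zero S h0
  intro H x hx
  classical
  have := Fintype.ofFinite S.G
  have hxH : x ∉ H := by
    intro h
    obtain ⟨y, hy⟩ := hx x h
    rw [S.exp_two, zero_of_one] at hy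
    exact h0 hy.symm
  obtain ⟨y, h3, h4⟩ := loc_sep S h1 h2 (Finset.univ.filter (fun g => g ∈ H)) x (by
    intro h
    apply hxH
    have h5 : Subgroup.closure (((Finset.univ.filter (fun g => g ∈ H)) : Finset S.G) : Set S.G)
        ≤ H := by
      rw [Subgroup.closure_le]
      intro g hg
      have := Finset.mem_coe.1 hg
      rw [Finset.mem_filter] at this
      exact this.2
    exact h5 h)
  refine ⟨y, fun u hu => ?_⟩
  have h5 : S.q u y = S.zero := h3 u (by
    rw [Finset.mem_filter]; exact ⟨Finset.mem_univ _, hu⟩)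
  have h6 : S.q (x * u) y = S.q x y := by
    rw [S.qs2, mul_comm, S.q_zero_mul (by rw [S.qs2]; exact h5), S.qs2]
  rw [h6]
  exact two_Q S h2 h4 h0

/-- structures of elementary type with `-1 = 1` have (P) at every quaternion -/
theorem flat_elem {S : QStruct} (h : ElemType S) : S.neg = 1 → ∀ a b, FlatP S a b := by
  induction h with
  | L0 S h =>
    intro _ a b
    have h1 := (Nat.card_eq_one_iff_unique.1 h).1
    have hb : b = 1 := Subsingleton.elim _ _
    exact flat_zero S (by rw [hb]; exact S.q_one a)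
  | L10 S h h1 h2 => exact fun _ a b => flat_zero S (h2 a b)
  | L11 S h h1 h2 => exact fun h => absurd h h1
  | L1 S h h1 h2 => exact fun h => absurd h h1
  | loc S hf h h1 h2 => exact fun _ => flat_loc S hf h1 h2
  | prod S T _ _ ihS ihT =>
    intro hneg
    exact flat_prod (ihS (congrArg Prod.fst hneg)) (ihT (congrArg Prod.snd hneg))
  | ext S _ ih =>
    intro hneg
    have h1 : S.neg = 1 := congrArg Prod.fst hneg
    exact flat_ext h1 (ih h1)
  | iso S T h1 _ ih =>
    intro hneg
    refine flat_iso h1 (ih ?_)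
    obtain ⟨e, he, -⟩ := h1
    exact e.injective (by rw [he, hneg, map_one])

/-- a nonzero quaternion with an inclusion-maximal set of slots -/
theorem exists_max (S : QStruct) [Finite S.G] (h : ∃ a b, S.q a b ≠ S.zero) :
    ∃ a b, S.q a b ≠ S.zero ∧
      ∀ c d, S.q c d ≠ S.zero → Slots S a b ⊆ Slots S c d → Slots S c d ⊆ Slots S a b := by
  have hfin : {A : Set S.G | ∃ a b, S.q a b ≠ S.zero ∧ A = Slots S a b}.Finite := Set.toFinite _
  obtain ⟨a, b, hab⟩ := h
  obtain ⟨A, ⟨⟨a, b, h1, rfl⟩, h2⟩⟩ := hfin.exists_maximal ⟨_, a, b, hab, rfl⟩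
  exact ⟨a, b, h1, fun c d h3 h4 => h2 ⟨c, d, h3, rfl⟩ h4⟩

/-- **The elementary type conjecture for `-1 = 1` is equivalent to (P)** -/
theorem conj_iff : (∀ S : QStruct, Finite S.G → S.neg = 1 → ElemType S) ↔
    ∀ S : QStruct, Finite S.G → S.neg = 1 → (∃ a b, S.q a b ≠ S.zero) → HasP S := by
  constructor
  · intro h S hf hneg h0
    obtain ⟨a, b, h1, h2⟩ := exists_max S h0
    exact ⟨a, b, h1, flat_elem (h S hf hneg) hneg a b, h2⟩
  · intro h
    apply all_of_P
    intro S hf hneg hT hS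
    apply h S hf hneg
    by_contra hcon
    push Not at hcon
    exact hS (top_span S hneg hT (Or.inl hcon))

end Pool.Agent.PGEF
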