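import Pool.Agent.PGELC.DualPair
import Pool.Agent.PGE.S11
import Pool.Agent.PPD.Main

/-!
Notes 2448, 2456 (helper28): from two-sided P-geometries to quaternionic structures with
`-1 = 1` (helper81).
-/

set_option autoImplicit false
set_option linter.unusedSectionVars false

namespace Pool.Agent.PGEF

open Pool.Agent.Helper58.PLine (QData)
open Pool.Agent.PGE

section data
variable {V Q : Type} [AddCommGroup V] [Module (ZMod 2) V]

/-- (P) at `c`: every affine subspace of the set of slots of `c` has a common neighbour -/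
def PP (D : QData V Q) (c : Q) : Prop :=
  ∀ (U : Submodule (ZMod 2) V) (x : V), (∀ u ∈ U, ∃ y, D.q (x + u) y = c) →
    ∃ y, ∀ u ∈ U, D.q (x + u) y = c

/-- the two-sided geometry of a symbol -/
def tg (D : QData V Q) {c : Q} (hc : c ≠ D.z) (h : PP D c) : TG V V Q where
  q := D.q
  z := D.z
  c := c
  hc := hc
  addL := fun x x' y => by
    rw [D.symm x y, D.symm x' y, D.symm (x + x') y]
    exact D.add y x x'
  addR := D.add
  ac1 := fun x v s s' t t' h1 h2 => ETC.add_common h1 h2
  ac2 := fun x v s s' t t' h1 h2 => by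
    rw [D.symm (s + s') x, D.symm (t + t') v]
    exact ETC.add_common (by rw [D.symm x s, D.symm v t]; exact h1)
      (by rw [D.symm x s', D.symm v t']; exact h2)
  ac3 := fun x y s s' t t' h1 h2 => by
    rw [D.symm (t + t') y]
    exact ETC.add_common (by rw [D.symm y t]; exact h1) (by rw [D.symm y t']; exact h2)
  pS := h
  pT := by
    intro U y hU
    obtain ⟨x, hx⟩ := h U y (fun u hu => by
      obtain ⟨x, hx⟩ := hU u hu
      exact ⟨x, by rw [D.symm]; exact hx⟩)
    exact ⟨x, fun u hu => by rw [D.symm]; exact hx u hu⟩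

/-- THEOREM of note 2456: (ONE) at `c`, or the slots of `c` are contained in the slots of
another symbol with more slots -/
theorem one_or_big [Finite V] (D : QData V Q) (he : D.e = 0) {c : Q}
    (hc : c ≠ D.z) (hs : ∃ x y, D.q x y = c) (h : PP D c) :
    (∃ x, (∃ y, D.q x y = c) ∧ ∀ s u, (∃ y, D.q s y = c) → D.q s u = D.z →
      D.q x u = D.z ∨ D.q x u = c) ∨
    ∃ c1, c1 ≠ D.z ∧ (∀ x, (∃ y, D.q x y = c) → ∃ y, D.q x y = c1) ∧
      ∃ x, (∃ y, D.q x y = c1) ∧ ¬ ∃ y, D.q x y = c := by
  let G : TG V V Q := tg D hc h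
  have sym : ∀ x y, G.q x y = G.q y x := D.symm
  have alt : ∀ x, G.C x x := by
    intro x
    have := D.diag x
    rw [he, add_zero] at this
    exact this
  have f1 : Finite (G.xc G.stT ⧸ (G.up G.stT).swap.stT) :=
    Finite.of_surjective _ (Submodule.Quotient.mk_surjective _)
  have f2 : Finite (V ⧸ G.stT) :=
    Finite.of_surjective _ (Submodule.Quotient.mk_surjective _)
  have h1 : G.core.CS := TG.core_red.cs
  have h2 : G.core.swap.CS := TG.core_red.swap.cs
  have hone : G.core.One → _ := fun h => TG.one_of_core h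
  rcases TG.core_red.tri (G := G.core) with ⟨g, g', h4⟩ | h4' | h4
  · left
    obtain ⟨x, hx, hx'⟩ := hone (h4.one (TG.core_hY sym alt))
    exact ⟨x, hx, fun s u h5 h6 => hx' s u h5 h6⟩
  · left
    have h4 : G.core.DPG := by
      intro x y hxy
      obtain ⟨e, -, he⟩ := h4' x y hxy
      exact ⟨e, he⟩
    obtain ⟨x, y, hxy⟩ := hs
    have hT : G.T y := ⟨x, hxy⟩
    obtain ⟨s, hs⟩ := TG.core_T hT
    obtain ⟨x, hx, hx'⟩ := hone (TG.DPG.one TG.core_red h4 ⟨s, _, hs⟩ (TG.core_hY sym alt))
    exact ⟨x, hx, fun s u h5 h6 => hx' s u h5 h6⟩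
  · right
    exact TG.split_of_core sym alt h1 h2 h4

end data

/-! ### Quaternionic structures -/

open QS Pool.Agent.RFT Pool.Agent.ETG Pool.Agent.RFN Pool.Agent.AST Pool.Agent.LSS
open Pool.Agent.RDC Pool.Agent.PPD

/-- every coset contained in the set of slots of `q (a, b)` has a common partner -/
def FlatP (S : QStruct) (a b : S.G) : Prop :=
  ∀ (H : Subgroup S.G) (x : S.G), (∀ u ∈ H, x * u ∈ Slots S a b) →
    ∃ y, ∀ u ∈ H, S.q (x * u) y = S.q a b

/-- some quaternion `q (a, b) ≠ 0` has an inclusion-maximal set of slots and (P) -/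
def HasP (S : QStruct) : Prop :=
  ∃ a b, S.q a b ≠ S.zero ∧ FlatP S a b ∧
    ∀ c d, S.q c d ≠ S.zero → Slots S a b ⊆ Slots S c d → Slots S c d ⊆ Slots S a b

theorem pp_of_flat (S : QStruct) (hneg : S.neg = 1) {a b : S.G} (h : FlatP S a b) :
    PP (toD S hneg) (S.q a b) := by
  intro U x hU
  let H : Subgroup S.G :=
    { carrier := {g | Additive.ofMul g ∈ U}
      mul_mem' := fun {g h} hg hh => by
        have : Additive.ofMul (g * h) ∈ U := by
          rw [ofMul_mul]; exact U.add_mem hg hh
        exact this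
      one_mem' := by
        have : Additive.ofMul (1 : S.G) ∈ U := by rw [ofMul_one]; exact U.zero_mem
        exact this
      inv_mem' := fun {g} hg => by
        have : Additive.ofMul g⁻¹ ∈ U := by rw [ofMul_inv]; exact U.neg_mem hg
        exact this }
  obtain ⟨y, hy⟩ := h H (Additive.toMul x) (fun u hu => by
    obtain ⟨y, hy⟩ := hU (Additive.ofMul u) hu
    exact ⟨Additive.toMul y, hy⟩)
  exact ⟨Additive.ofMul y, fun u hu => hy (Additive.toMul u) hu⟩

/-- (ONE) gives a perfect pair (note 2204) -/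
theorem perfect_of_one (S : QStruct) (hneg : S.neg = 1) {a b : S.G} (hab : S.q a b ≠ S.zero)
    (h : ∃ x, (∃ y, (toD S hneg).q x y = S.q a b) ∧ ∀ s u, (∃ y, (toD S hneg).q s y = S.q a b) →
      (toD S hneg).q s u = (toD S hneg).z →
      (toD S hneg).q x u = (toD S hneg).z ∨ (toD S hneg).q x u = S.q a b) : HasPerfect S := by
  set D := toD S hneg with hD'
  have he : D.e = 0 := rfl
  obtain ⟨z, ⟨y, hzy⟩, h1⟩ := h
  have hyz : D.q y z = S.q a b := by rw [D.symm]; exact hzy
  have hyz' : S.q (Additive.toMul y) (Additive.toMul z) = S.q a b := hyz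
  refine ⟨Additive.toMul y, Additive.toMul z, ?_, ?_, ?_⟩
  · rw [hyz']; exact hab
  · rintro x ⟨t, ht⟩ n hn
    rcases h1 (Additive.ofMul x) (Additive.ofMul n) ⟨Additive.ofMul t, ht.trans hyz'⟩ hn with
      h2 | h2
    · exact ⟨1, n, by
        have := ETCP.C.zero (S := D) y
        exact this, h2, by rw [one_mul]⟩
    · refine ⟨Additive.toMul y, Additive.toMul (y + Additive.ofMul n), ?_, ?_, ?_⟩
      · exact ETCP.C.self (S := D) he y
      · have : D.q z (y + Additive.ofMul n) = D.z := (D.add z y (Additive.ofMul n)).1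
          (hzy.trans h2.symm)
        exact this
      · have : y + (y + Additive.ofMul n) = Additive.ofMul n := by
          rw [← add_assoc, ZModModule.add_self, zero_add]
        exact (congrArg Additive.toMul this).symm
  · intro v hv
    have hs : D.q (y + z) z = S.q a b := by
      rw [← hyz]
      apply ETCP.q_eq'
      refine (ETCP.C.self he z).of_eq ?_ rfl
      exact ETCP.eo (by abel_nf; simp [ETCP.ch2])
    rcases h1 (y + z) (Additive.ofMul v) ⟨z, hs⟩ hv with h2 | h2
    · exact Or.inl h2
    · right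
      rw [hyz']
      exact h2

/-- a structure with `-1 = 1` all of whose smaller structures are of elementary type, with a
quaternion which has (P) and an inclusion-maximal set of slots, is of elementary type -/
theorem top_of_P (S : QStruct) [Finite S.G] (hneg : S.neg = 1)
    (hT : ∀ T : QStruct, Finite T.G → T.neg = 1 → Nat.card T.G < Nat.card S.G → ElemType T)
    (h : HasP S) : ElemType S := by
  obtain ⟨a, b, hab, hP, hmax⟩ := h
  have hf : Finite (Additive S.G) := (inferInstance : Finite S.G)
  rcases one_or_big (toD S hneg) rfl (c := S.q a b) hab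
    ⟨Additive.ofMul a, Additive.ofMul b, rfl⟩ (pp_of_flat S hneg hP) with h1 | h1
  · exact top_of_perfect S hneg hT (perfect_of_one S hneg hab h1)
  · exfalso
    obtain ⟨c1, hc1, h2, x, ⟨y, hxy⟩, h3⟩ := h1
    obtain ⟨c, d, rfl⟩ := S.surj c1
    have h4 := hmax c d hc1 (by
      rintro v ⟨w, hw⟩
      obtain ⟨w', hw'⟩ := h2 (Additive.ofMul v) ⟨Additive.ofMul w, hw⟩
      exact ⟨Additive.toMul w', hw'⟩)
    obtain ⟨w, hw⟩ := h4 (show Additive.toMul x ∈ Slots S c d from ⟨Additive.toMul y, hxy⟩)
    exact h3 ⟨Additive.ofMul w, hw⟩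

/-- **The P-door** -/
theorem all_of_P
    (h : ∀ S : QStruct, Finite S.G → S.neg = 1 →
      (∀ T : QStruct, Finite T.G → T.neg = 1 → Nat.card T.G < Nat.card S.G → ElemType T) →
      ¬ ElemType S → HasP S) :
    ∀ S : QStruct, Finite S.G → S.neg = 1 → ElemType S := by
  intro S hf hneg
  induction hn : Nat.card S.G using Nat.strong_induction_on generalizing S with
  | _ n ih =>
    subst hn
    have hT : ∀ T : QStruct, Finite T.G → T.neg = 1 → Nat.card T.G < Nat.card S.G →
        ElemType T := fun T hf' hn' hc => ih (Nat.card T.G) hc T hf' hn' rfl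
    by_contra hS
    exact hS (top_of_P S hneg hT (h S hf hneg hT hS))

end Pool.Agent.PGEF
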