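import Pool.Agent.PGEF.Conv

/-!
From TRI (= (P) for planes, three-slot linkage) for all finite two-sided linked pairs to (P) for all
affine subspaces, and to the elementary type conjecture for `-1 = 1` (helper81).  Set valued.
-/

set_option autoImplicit false
set_option linter.unusedSectionVars false

namespace Pool.Agent.PGEF

open Pool.Agent.Helper58.PLine (QData)
open Pool.Agent.PGE

/-- a set valued two-sided linked pairing -/
structure LG (X Y Q : Type) [AddCommGroup X] [Module (ZMod 2) X] [AddCommGroup Y]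
    [Module (ZMod 2) Y] where
  q : X → Y → Q
  z : Q
  addL : ∀ x x' y, q x y = q x' y ↔ q (x + x') y = z
  addR : ∀ x y y', q x y = q x y' ↔ q x (y + y') = z
  ac3 : ∀ x y s s' t t', q x s = q t y → q x s' = q t' y → q x (s + s') = q (t + t') y
  lkX : ∀ x x' y y', q x y = q x' y' → ∃ t, q x t = q x y ∧ q x' t = q x y
  lkY : ∀ x x' y y', q x y = q x' y' → ∃ t, q t y = q x y ∧ q t y' = q x y

/-- three-slot linkage on the right: four coplanar right slots of `c` have a common partner -/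
def LG.P2 {X Y Q : Type} [AddCommGroup X] [Module (ZMod 2) X] [AddCommGroup Y]
    [Module (ZMod 2) Y] (G : LG X Y Q) : Prop :=
  ∀ c y v v', (∃ x, G.q x y = c) → (∃ x, G.q x (y + v) = c) → (∃ x, G.q x (y + v') = c) →
    (∃ x, G.q x (y + (v + v')) = c) →
    ∃ x, G.q x y = c ∧ G.q x (y + v) = c ∧ G.q x (y + v') = c

/-- three-slot linkage for all finite two-sided linked pairings -/
def TRI : Prop :=
  ∀ (X Y Q : Type) [AddCommGroup X] [Module (ZMod 2) X] [AddCommGroup Y] [Module (ZMod 2) Y]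
    [Finite X] [Finite Y] (G : LG X Y Q), G.P2

namespace LG

variable {X Y Q : Type} [AddCommGroup X] [Module (ZMod 2) X] [AddCommGroup Y]
  [Module (ZMod 2) Y]

/-- the dual pairing -/
def swap (G : LG X Y Q) : LG Y X Q where
  q := fun y x => G.q x y
  z := G.z
  addL := fun y y' x => G.addR x y y'
  addR := fun y x x' => G.addL x x' y
  ac3 := fun x y s s' t t' h h' => (G.ac3 y x t t' s s' h.symm h'.symm).symm
  lkX := fun y y' x x' h => G.lkY x x' y y' h
  lkY := fun y y' x x' h => G.lkX x x' y y' h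

variable (G : LG X Y Q)

theorem zl (y : Y) : G.q 0 y = G.z := by
  have h := (G.addL 0 0 y).1 rfl
  rwa [add_zero] at h

theorem zr (x : X) : G.q x 0 = G.z := by
  have h := (G.addR x 0 0).1 rfl
  rwa [add_zero] at h

/-- elements of `X` commuting with `w` -/
def xw (w : Y) : Submodule (ZMod 2) X where
  carrier := {x | G.q x w = G.z}
  add_mem' := fun {a b} ha hb => (G.addL a b w).1 ((show G.q a w = G.z from ha).trans
    (show G.q b w = G.z from hb).symm)
  zero_mem' := G.zl w
  smul_mem' := fun r a ha => by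
    have : r = 0 ∨ r = 1 := by revert r; decide
    rcases this with rfl | rfl
    · rw [zero_smul]; exact G.zl w
    · rw [one_smul]; exact ha

theorem mem_xw {w : Y} {x : X} : x ∈ G.xw w ↔ G.q x w = G.z := Iff.rfl

variable {G}

/-- the residue at `w` -/
def up (h2 : G.P2) (w : Y) : LG (G.xw w) (Y ⧸ Submodule.span (ZMod 2) {w}) Q where
  q := fun x y => Quotient.liftOn' y (fun t => G.q x.1 t) (by
    intro a b hab
    have h1 : a - b ∈ Submodule.span (ZMod 2) {w} := (Submodule.quotientRel_def _).1 hab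
    have h3 : a - b = b + a := by
      rw [sub_eq_iff_eq_add]; exact (eo (by abel_nf <;> simp only [ch2, ch3, ch4, ch5, ch6, add_zero, zero_add]))
    rw [h3] at h1
    show G.q x.1 a = G.q x.1 b
    rcases mem_s1.1 h1 with h4 | h4
    · rw [eo h4]
    · rw [G.addR, add_comm a b, h4]
      exact x.2)
  z := G.z
  addL := by
    rintro x x' ⟨y⟩
    exact G.addL x.1 x'.1 y
  addR := by
    rintro x ⟨y⟩ ⟨y'⟩
    exact G.addR x.1 y y'
  ac3 := by
    rintro x ⟨y⟩ ⟨s⟩ ⟨s'⟩ t t'
    exact G.ac3 x.1 y s s' t.1 t'.1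
  lkX := by
    rintro x x' ⟨y⟩ ⟨y'⟩ h
    obtain ⟨t, h3, h4⟩ := G.lkX x.1 x'.1 y y' h
    exact ⟨Submodule.Quotient.mk t, h3, h4⟩
  lkY := by
    rintro ⟨x, hx⟩ ⟨x', hx'⟩ ⟨y⟩ ⟨y'⟩ h
    have h' : G.q x y = G.q x' y' := h
    have e1 : G.q x (y + w) = G.q x y := by
      rw [G.addR]
      have : y + w + y = w := (eo (by abel_nf <;> simp only [ch2, ch3, ch4, ch5, ch6, add_zero, zero_add]))
      rw [this]; exact hx
    have e2 : G.q x' (y' + w) = G.q x' y' := by
      rw [G.addR]
      have : y' + w + y' = w := (eo (by abel_nf <;> simp only [ch2, ch3, ch4, ch5, ch6, add_zero, zero_add]))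
      rw [this]; exact hx'
    obtain ⟨t, a1, a2, a3⟩ := h2 (G.q x y) y w (y + y') ⟨x, rfl⟩ ⟨x, e1⟩
      ⟨x', by rw [aab, ← h']⟩ ⟨x', by
        have : y + (w + (y + y')) = y' + w :=
          (eo (by abel_nf <;> simp only [ch2, ch3, ch4, ch5, ch6, add_zero, zero_add]))
        rw [this, e2, ← h']⟩
    have a4 : G.q t w = G.z := by
      have := (G.addR t y (y + w)).1 (a1.trans a2.symm)
      rwa [aab] at this
    rw [aab] at a3
    exact ⟨⟨t, a4⟩, a1, a3⟩

theorem up_q (h2 : G.P2) (w : Y) (x : G.xw w) (y : Y) :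
    (G.up h2 w).q x (Submodule.Quotient.mk y) = G.q x.1 y := rfl

theorem card_q {M : Type} [AddCommGroup M] [Module (ZMod 2) M] [Finite M] {w : M}
    (hw : w ≠ 0) : Nat.card (M ⧸ Submodule.span (ZMod 2) {w}) < Nat.card M :=
  TG.card_quo _ (Submodule.mem_span_singleton_self w) hw

/-- (P) on the right for all affine subspaces -/
theorem flat (T : TRI) (n : ℕ) : ∀ (X Y Q : Type) [AddCommGroup X] [Module (ZMod 2) X]
    [AddCommGroup Y] [Module (ZMod 2) Y] [Finite X] [Finite Y] (G : LG X Y Q),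
    Nat.card Y = n → ∀ (c : Q) (U : Submodule (ZMod 2) Y) (y : Y),
    (∀ u ∈ U, ∃ x, G.q x (y + u) = c) → ∃ x, ∀ u ∈ U, G.q x (y + u) = c := by
  induction n using Nat.strong_induction_on with
  | _ n ih =>
    intro X Y Q _ _ _ _ _ _ G hn c U y hU
    by_cases h0 : ∀ u ∈ U, u = 0
    · obtain ⟨x, hx⟩ := hU 0 U.zero_mem
      exact ⟨x, fun u hu => by rw [h0 u hu]; exact hx⟩
    push Not at h0
    obtain ⟨w, hw, hw0⟩ := h0
    have h2 : G.P2 := T X Y Q G
    have : Finite (Y ⧸ Submodule.span (ZMod 2) {w}) :=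
      Finite.of_surjective _ (Submodule.Quotient.mk_surjective _)
    obtain ⟨x, hx⟩ := ih _ (by rw [← hn]; exact card_q hw0) (G.xw w)
      (Y ⧸ Submodule.span (ZMod 2) {w}) Q (G.up h2 w) rfl c
      (U.map (Submodule.span (ZMod 2) {w}).mkQ) (Submodule.Quotient.mk y) (by
        rintro _ ⟨u, hu, rfl⟩
        obtain ⟨x1, h3⟩ := hU u hu
        obtain ⟨x2, h4⟩ := hU (u + w) (U.add_mem hu hw)
        obtain ⟨t, h5, h6⟩ := G.lkY x1 x2 (y + u) (y + (u + w)) (h3.trans h4.symm)
        have h7 : G.q t w = G.z := by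
          have := (G.addR t _ _).1 (h5.trans h6.symm)
          have e : y + u + (y + (u + w)) = w :=
            (eo (by abel_nf <;> simp only [ch2, ch3, ch4, ch5, ch6, add_zero, zero_add]))
          rwa [e] at this
        exact ⟨⟨t, h7⟩, h5.trans h3⟩)
    exact ⟨x.1, fun u hu => hx _ ⟨u, hu, rfl⟩⟩

end LG

/-- the pairing of a quaternionic structure with `-1 = 1` -/
def lg {V Q : Type} [AddCommGroup V] [Module (ZMod 2) V] (D : QData V Q) : LG V V Q where
  q := D.q
  z := D.z
  addL := fun x x' y => by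
    rw [D.symm x y, D.symm x' y, D.symm (x + x') y]
    exact D.add y x x'
  addR := D.add
  ac3 := fun x y s s' t t' h1 h2 => by
    rw [D.symm (t + t') y]
    exact ETC.add_common (by rw [D.symm y t]; exact h1) (by rw [D.symm y t']; exact h2)
  lkX := fun x x' y y' h => by
    obtain ⟨t, h1, h2⟩ := D.link x y x' y' h
    exact ⟨t, h1.symm, h2.symm.trans h.symm⟩
  lkY := fun x x' y y' h => by
    obtain ⟨t, h1, h2⟩ := D.link y x y' x' (by rw [D.symm y x, D.symm y' x']; exact h)
    refine ⟨t, ?_, ?_⟩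
    · rw [D.symm, ← h1, D.symm]
    · rw [D.symm, ← h2, D.symm y' x']
      exact h.symm

/-- TRI gives (P) at every symbol -/
theorem pp_of_tri (T : TRI) {V Q : Type} [AddCommGroup V] [Module (ZMod 2) V] [Finite V]
    (D : QData V Q) (c : Q) : PP D c := by
  intro U x hU
  obtain ⟨y, hy⟩ := LG.flat T _ V V Q (lg D) rfl c U x (fun u hu => by
    obtain ⟨y, hy⟩ := hU u hu
    exact ⟨y, (D.symm _ _).trans hy⟩)
  exact ⟨y, fun u hu => (D.symm _ _).trans (hy u hu)⟩

open QS Pool.Agent.RFT Pool.Agent.ETG Pool.Agent.RFN Pool.Agent.AST Pool.Agent.LSS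

theorem flat_of_pp (S : QStruct) (hneg : S.neg = 1) {a b : S.G}
    (h : PP (toD S hneg) (S.q a b)) : FlatP S a b := by
  intro H x hx
  let U : Submodule (ZMod 2) (Additive S.G) := AddSubgroup.toZModSubmodule 2
    { carrier := {v : Additive S.G | Additive.toMul v ∈ H}
      add_mem' := fun {a b} ha hb => H.mul_mem ha hb
      zero_mem' := H.one_mem
      neg_mem' := fun {a} ha => H.inv_mem ha }
  obtain ⟨y, hy⟩ := h U (Additive.ofMul x) (fun u hu => by
    obtain ⟨y, hy⟩ := hx (Additive.toMul u) hu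
    exact ⟨Additive.ofMul y, hy⟩)
  exact ⟨Additive.toMul y, fun u hu => hy (Additive.ofMul u) hu⟩

/-- **TRI implies the elementary type conjecture for `-1 = 1`.** -/
theorem all_of_tri (T : TRI) : ∀ S : QStruct, Finite S.G → S.neg = 1 → ElemType S := by
  refine conj_iff.2 ?_
  intro S hf hneg h0
  obtain ⟨a, b, h1, h2⟩ := exists_max S h0
  have hf' : Finite (Additive S.G) := hf
  exact ⟨a, b, h1, flat_of_pp S hneg (pp_of_tri T (toD S hneg) _), h2⟩

end Pool.Agent.PGEF
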